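import Pool.Agent.H51.MF.Main

/-! An algebra with infinitely many bricks of one dimension has a lattice point which is not
rigid. -/

set_option linter.style.haveILetI false
set_option linter.unusedSectionVars false

universe u v

namespace Pool.Agent.Results.MP_50148c_al.BrickFamilies

open Module Pool.Agent.H51.T2 Pool.Agent.H51.MF

/-- A homomorphism `f : P → Q` of modules, seen as a two-term complex, is rigid if
`Hom(f, f[1]) = 0` in the homotopy category, that is, if every homomorphism `P → Q` has the form
`f s + t f` with endomorphisms `s` of `P` and `t` of `Q`. -/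
def RigidMap {A : Type u} [Ring A] {P Q : Type u} [AddCommGroup P] [Module A P]
    [AddCommGroup Q] [Module A Q] (f : P →ₗ[A] Q) : Prop :=
  ∀ h : P →ₗ[A] Q, ∃ (s : P →ₗ[A] P) (t : Q →ₗ[A] Q), h = f ∘ₗ s + t ∘ₗ f

/-- A brick: a nonzero module all of whose nonzero endomorphisms are bijective. -/
def IsBrick (A : Type u) [Ring A] (M : Type u) [AddCommGroup M] [Module A M] : Prop :=
  Nontrivial M ∧ ∀ φ : M →ₗ[A] M, φ ≠ 0 → Function.Bijective φ

/-- Let `A` be a finite-dimensional algebra over an infinite field `K`. If for some `m` no finite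
list contains all bricks of dimension `m` up to isomorphism, then there are finitely generated
projective modules `P`, `Q` such that no homomorphism `P → Q` is rigid: the lattice point
`[Q] - [P]` is not rigid. -/
theorem result (K : Type v) [Field K] [Infinite K] (A : Type u) [Ring A] [Algebra K A]
    [FiniteDimensional K A] (m : ℕ)
    (hinf : ¬ ∃ L : List (ModuleCat.{u} A), ∀ (M : Type u) [AddCommGroup M] [Module K M]
      [Module A M] [IsScalarTower K A M] [FiniteDimensional K M], IsBrick A M →
      finrank K M = m → ∃ X ∈ L, Nonempty (M ≃ₗ[A] X)) :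
    ∃ P Q : ModuleCat.{u} A, Module.Finite A P ∧ Module.Finite A Q ∧ Module.Projective A P ∧
      Module.Projective A Q ∧ ¬ ∃ f : P →ₗ[A] Q, RigidMap f := by
  by_contra hcon
  apply hinf
  have hR : ∀ (P Q : Type u) [AddCommGroup P] [Module A P] [AddCommGroup Q] [Module A Q]
      [Module.Finite A P] [Module.Finite A Q] [Module.Projective A P] [Module.Projective A Q],
      ∃ f : P →ₗ[A] Q, Rigid f := by
    intro P Q _ _ _ _ _ _ _ _
    by_contra hno
    apply hcon
    refine ⟨ModuleCat.of A P, ModuleCat.of A Q, ‹_›, ‹_›, ‹_›, ‹_›, fun ⟨f, hf⟩ => hno ?_⟩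
    refine ⟨f, fun h => ?_⟩
    obtain ⟨s, t, hst⟩ := hf h
    exact ⟨s, -t, by rw [hst, LinearMap.neg_comp, sub_neg_eq_add]⟩
  obtain ⟨L, hL⟩ := main_bricks K A hR m
  exact ⟨L, fun M _ _ _ _ _ h1 h2 => hL M h1.1 h1.2 h2.le⟩

end Pool.Agent.Results.MP_50148c_al.BrickFamilies
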