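import Pool.Agent.H51.MF.Main

/-! An algebra with a torsion class `⊥Y` which is not functorially finite has a lattice point which
is not rigid. -/

set_option linter.style.haveILetI false
set_option linter.unusedSectionVars false

universe u v

namespace Pool.Agent.Results.MP_50148c_al.PerpFinite

open Module Pool.Agent.H51.T2 Pool.Agent.H51.MF

/-- A homomorphism `f : P → Q` of modules, seen as a two-term complex, is rigid if
`Hom(f, f[1]) = 0` in the homotopy category, that is, if every homomorphism `P → Q` has the form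
`f s + t f` with endomorphisms `s` of `P` and `t` of `Q`. -/
def RigidMap {A : Type u} [Ring A] {P Q : Type u} [AddCommGroup P] [Module A P]
    [AddCommGroup Q] [Module A Q] (f : P →ₗ[A] Q) : Prop :=
  ∀ h : P →ₗ[A] Q, ∃ (s : P →ₗ[A] P) (t : Q →ₗ[A] Q), h = f ∘ₗ s + t ∘ₗ f

/-- The torsion class of all finite-dimensional `X` with `Hom (X, Y) = 0` is the torsion class of a
rigid map `g : P → Q` of finitely generated projectives: the class of all `X` such that every
homomorphism `P → X` factors through `g`. -/
def PerpIsRigid (K : Type v) [Field K] (A : Type u) [Ring A] [Algebra K A] (Y : Type u)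
    [AddCommGroup Y] [Module A Y] : Prop :=
  ∃ (P Q : ModuleCat.{u} A) (g : P →ₗ[A] Q),
    Module.Finite A P ∧ Module.Finite A Q ∧ Module.Projective A P ∧ Module.Projective A Q ∧
    RigidMap g ∧ ∀ (X : Type u) [AddCommGroup X] [Module K X] [Module A X]
      [IsScalarTower K A X] [FiniteDimensional K X],
      (∀ φ : X →ₗ[A] Y, φ = 0) ↔ ∀ k : P →ₗ[A] X, ∃ l : Q →ₗ[A] X, k = l ∘ₗ g

/-- Let `A` be a finite-dimensional algebra over an infinite field `K` and `Y` a finite-dimensional
module. If the torsion class of all `X` with `Hom (X, Y) = 0` is not the torsion class of a rigid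
map, then there are finitely generated projective modules `P`, `Q` such that no homomorphism
`P → Q` is rigid. -/
theorem result (K : Type v) [Field K] [Infinite K] (A : Type u) [Ring A] [Algebra K A]
    [FiniteDimensional K A] (Y : Type u) [AddCommGroup Y] [Module K Y] [Module A Y]
    [IsScalarTower K A Y] [FiniteDimensional K Y] (hY : ¬ PerpIsRigid K A Y) :
    ∃ P Q : ModuleCat.{u} A, Module.Finite A P ∧ Module.Finite A Q ∧ Module.Projective A P ∧
      Module.Projective A Q ∧ ¬ ∃ f : P →ₗ[A] Q, RigidMap f := by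
  by_contra hcon
  apply hY
  have hR : ∀ (P Q : Type u) [AddCommGroup P] [Module A P] [AddCommGroup Q] [Module A Q]
      [Module.Finite A P] [Module.Finite A Q] [Module.Projective A P] [Module.Projective A Q],
      ∃ f : P →ₗ[A] Q, Rigid f := by
    intro P Q _ _ _ _ _ _ _ _
    by_contra hno
    apply hcon
    refine ⟨ModuleCat.of A P, ModuleCat.of A Q, ‹_›, ‹_›, ‹_›, ‹_›, fun ⟨f, hf⟩ => hno ?_⟩
    refine ⟨f, fun h => ?_⟩
    obtain ⟨s, t, hst⟩ := hf h
    exact ⟨s, -t, by rw [hst, LinearMap.neg_comp, sub_neg_eq_add]⟩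
  obtain ⟨g, hg, hg2⟩ := main_perp K A hR Y
  haveI : Module.Finite A g.P := Module.Finite.of_restrictScalars_finite K A g.P
  haveI : Module.Finite A g.Q := Module.Finite.of_restrictScalars_finite K A g.Q
  refine ⟨ModuleCat.of A g.P, ModuleCat.of A g.Q, g.f, ‹_›, ‹_›, g.hP, g.hQ, fun h => ?_,
    fun X _ _ _ _ _ => (hg2 X).symm⟩
  obtain ⟨s, t, hst⟩ := hg h
  exact ⟨s, -t, by rw [hst, LinearMap.neg_comp, ← sub_eq_add_neg]⟩

end Pool.Agent.Results.MP_50148c_al.PerpFinite
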