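import Pool.Agent.H51.T2.Plane

/-! Rational planes in the space of g-vectors, for algebras of arbitrary rank. -/

set_option linter.style.haveILetI false

universe u v

namespace Pool.Agent.Results.MP_50148c_al.RationalPlane

open Module Pool.Agent.H51.T2

variable {A : Type u} [Ring A]

/-- The homomorphisms `P₁ ^ a × P₂ ^ b → Q₁ ^ a × Q₂ ^ b`, where `c = (a, b)`; if all modules are
projective, their g-vector is `a ([Q₁] - [P₁]) + b ([Q₂] - [P₂])`. -/
def Hom (P₁ Q₁ P₂ Q₂ : ModuleCat.{u} A) (c : ℕ × ℕ) : Type u :=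
  ((Fin c.1 → P₁) × (Fin c.2 → P₂)) →ₗ[A] ((Fin c.1 → Q₁) × (Fin c.2 → Q₂))

/-- `Hom(f, g[1]) = 0` for two homomorphisms `f : P → Q`, `g : P' → Q'`, seen as two-term
complexes: every homomorphism `P → Q'` has the form `g s + t f`. -/
def ExtZero {P Q P' Q' : Type u} [AddCommGroup P] [Module A P]
    [AddCommGroup Q] [Module A Q] [AddCommGroup P'] [Module A P'] [AddCommGroup Q'] [Module A Q']
    (f : P →ₗ[A] Q) (g : P' →ₗ[A] Q') : Prop :=
  ∀ h : P →ₗ[A] Q', ∃ (s : P →ₗ[A] P') (t : Q →ₗ[A] Q'), h = g ∘ₗ s + t ∘ₗ f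

/-- Two homomorphisms are compatible if `Hom(f, g[1]) = 0 = Hom(g, f[1])`. A homomorphism
compatible with itself is called rigid. -/
def Compatible {P₁ Q₁ P₂ Q₂ : ModuleCat.{u} A} {c d : ℕ × ℕ} (f : Hom P₁ Q₁ P₂ Q₂ c)
    (g : Hom P₁ Q₁ P₂ Q₂ d) : Prop :=
  ExtZero (A := A) f g ∧ ExtZero (A := A) g f

/-- The class `c` is a combination with natural coefficients of the classes of two compatible
members of the list. -/
def CoveredBy {P₁ Q₁ P₂ Q₂ : ModuleCat.{u} A} (L : List (Σ c : ℕ × ℕ, Hom P₁ Q₁ P₂ Q₂ c))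
    (c : ℕ × ℕ) : Prop :=
  ∃ X ∈ L, ∃ Y ∈ L, Compatible X.2 Y.2 ∧ ∃ α β : ℕ, c = α • X.1 + β • Y.1

theorem extZero_iff {P Q P' Q' : Type u} [AddCommGroup P] [Module A P]
    [AddCommGroup Q] [Module A Q] [AddCommGroup P'] [Module A P'] [AddCommGroup Q'] [Module A Q']
    (f : P →ₗ[A] Q) (g : P' →ₗ[A] Q') : ExtZero f g ↔ EZero f g := by
  constructor
  · intro h k
    obtain ⟨s, t, hst⟩ := h k
    exact ⟨s, -t, by rw [hst]; ext x; simp⟩
  · intro h k
    obtain ⟨s, t, hst⟩ := h k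
    exact ⟨s, -t, by rw [hst]; ext x; simp [sub_eq_add_neg]⟩

/-- Let `A` be a finite-dimensional algebra over an infinite field and let `P₁, Q₁, P₂, Q₂` be
finitely generated modules. If for all natural numbers `a, b` there is a rigid homomorphism
`P₁ ^ a × P₂ ^ b → Q₁ ^ a × Q₂ ^ b`, then there is a finite list of rigid such homomorphisms
such that every class `(a, b)` is a combination with natural coefficients of the classes of two
compatible members of the list. -/
theorem result (K : Type v) [Field K] [Infinite K] (A : Type u) [Ring A] [Algebra K A]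
    [FiniteDimensional K A] (P₁ Q₁ P₂ Q₂ : ModuleCat.{u} A)
    [Module.Finite A P₁] [Module.Finite A Q₁] [Module.Finite A P₂] [Module.Finite A Q₂]
    (hyp : ∀ c : ℕ × ℕ, ∃ f : Hom P₁ Q₁ P₂ Q₂ c, Compatible f f) :
    ∃ L : List (Σ c : ℕ × ℕ, Hom P₁ Q₁ P₂ Q₂ c), (∀ X ∈ L, Compatible X.2 X.2) ∧
      ∀ c : ℕ × ℕ, CoveredBy L c := by
  letI : Module K P₁ := Module.compHom P₁ (algebraMap K A)
  haveI : IsScalarTower K A P₁ := ⟨fun k a m => by
    show (k • a) • m = (algebraMap K A k) • (a • m)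
    rw [Algebra.smul_def, mul_smul]⟩
  haveI : Module.Finite K P₁ := Module.Finite.trans A P₁
  letI : Module K Q₁ := Module.compHom Q₁ (algebraMap K A)
  haveI : IsScalarTower K A Q₁ := ⟨fun k a m => by
    show (k • a) • m = (algebraMap K A k) • (a • m)
    rw [Algebra.smul_def, mul_smul]⟩
  haveI : Module.Finite K Q₁ := Module.Finite.trans A Q₁
  letI : Module K P₂ := Module.compHom P₂ (algebraMap K A)
  haveI : IsScalarTower K A P₂ := ⟨fun k a m => by
    show (k • a) • m = (algebraMap K A k) • (a • m)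
    rw [Algebra.smul_def, mul_smul]⟩
  haveI : Module.Finite K P₂ := Module.Finite.trans A P₂
  letI : Module K Q₂ := Module.compHom Q₂ (algebraMap K A)
  haveI : IsScalarTower K A Q₂ := ⟨fun k a m => by
    show (k • a) • m = (algebraMap K A k) • (a • m)
    rw [Algebra.smul_def, mul_smul]⟩
  haveI : Module.Finite K Q₂ := Module.Finite.trans A Q₂
  obtain ⟨L, h1, h2⟩ := exists_covers_all (A := A) (P₁ := P₁) (Q₁ := Q₁) (P₂ := P₂) (Q₂ := Q₂) K
    (fun a b => by
      obtain ⟨f, hf, -⟩ := hyp (a, b)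
      exact ⟨f, (extZero_iff (A := A) f f).1 hf⟩)
  refine ⟨L, fun X hX => ⟨(extZero_iff _ _).2 (h1 X hX), (extZero_iff _ _).2 (h1 X hX)⟩,
    fun c => ?_⟩
  obtain ⟨X, hX, Y, hY, α, β, h3, h4, h5⟩ := h2 c.1 c.2
  exact ⟨X, hX, Y, hY, ⟨(extZero_iff _ _).2 h4, (extZero_iff _ _).2 h5⟩, α, β, h3⟩

end Pool.Agent.Results.MP_50148c_al.RationalPlane
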