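import Mathlib
import Pool.Agent.H4.TS.Defs
import Pool.Agent.H4.TS.Fin

/-! The tau-reduced second Brauer-Thrall conjecture (in terms of g-vectors) for algebras with at
most two simple modules. -/

universe u v

namespace Pool.Agent.Results.MP_50148c_al.TwoSimples

open Pool.Agent.H4.TS

/-- Let `A` be a finite-dimensional algebra over an infinite field with at most two simple modules
up to isomorphism. If `A` is τ-tilting infinite (no finite list of modules contains all
indecomposable τ-rigid modules up to isomorphism), then there are finitely generated projective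
modules `P`, `Q` such that no homomorphism `P → Q` is rigid: the g-vector `[Q] - [P]` is not
rigid. -/
theorem result (K : Type v) [Field K] [Infinite K] (A : Type u) [Ring A] [Algebra K A]
    [FiniteDimensional K A] (S₁ S₂ : Type u) [AddCommGroup S₁] [Module A S₁]
    [AddCommGroup S₂] [Module A S₂] [IsSimpleModule A S₁] [IsSimpleModule A S₂]
    (hS : ∀ (S : Type u) [AddCommGroup S] [Module A S] [IsSimpleModule A S],
      Iso A S S₁ ∨ Iso A S S₂)
    (hinf : ∀ (n : ℕ) (N : Fin n → Type u) [∀ i, AddCommGroup (N i)] [∀ i, Module A (N i)],
      ∃ (M : Type u) (_ : AddCommGroup M) (_ : Module A M), Indecomposable A M ∧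
        IsTauRigid A M K ∧ ∀ i, ¬ Iso A M (N i)) :
    ∃ (P Q : Type u) (_ : AddCommGroup P) (_ : Module A P) (_ : AddCommGroup Q)
      (_ : Module A Q), Proj A P ∧ Proj A Q ∧ ∀ f : P → Q, IsLinearMap A f → ¬ Rigid A f :=
  main K A S₁ S₂ hS hinf

end Pool.Agent.Results.MP_50148c_al.TwoSimples
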